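import Pool.Agent.Pon30.All37

/-!
# Analytic triangle centres with elliptic loci over all non-aligned concentric Poncelet pairs

Points of the plane are complex numbers. The curve `qf α β (z - o) = 1`, where `qf α β v = α ‖v‖² + Re (β v²)` and
`‖β‖ < α`, is an ellipse with centre `o`, and every ellipse with centre `o` is of this form. If `f` is a centre
function which is real-analytic on the set of side lengths of nondegenerate triangles, and for every concentric
Poncelet pair with non-parallel axes the locus of the centre is an ellipse, then the centre is the centroid, the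
circumcentre or the orthocentre.
-/

namespace Pool.Agent.Results.MP_02df19_gt.AnalyticCenters

open Pool.Agent.Pon30

/-- **Analytic triangle centres with elliptic loci.** Let `f` be a centre function, real-analytic on the set of
side lengths of nondegenerate triangles, such that for every pair of concentric ellipses with non-parallel axes that
has 3-periodics the locus of the centre over the 3-periodics is an ellipse. Then there is `κ ∈ {0, 1, -2}` such that
for every nondegenerate triangle `A B C` with circumcentre `O` the centre is `(1 - κ) (A + B + C) / 3 + κ O`: it is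
the centroid, the circumcentre or the orthocentre. -/
theorem result (f : ℝ → ℝ → ℝ → ℝ) (hf : IsCenterFunction f)
    (han : AnalyticOnNhd ℝ (fun p : ℝ × ℝ × ℝ => f p.1 p.2.1 p.2.2) {p | Tri p.1 p.2.1 p.2.2})
    (hloc : ∀ (o : ℂ) (α : ℝ) (β : ℂ) (α' : ℝ) (β' : ℂ), PonceletPair o α β α' β' → NonAligned β β' →
      EllipticLocus f o α β α' β') :
    ∃ κ : ℝ, (κ = 0 ∨ κ = 1 ∨ κ = -2) ∧ ∀ A B C : ℂ, IsTriangle A B C → wsum f A B C ≠ 0 ∧
      ∀ O : ℂ, ‖O - A‖ = ‖O - B‖ → ‖O - B‖ = ‖O - C‖ →
        center f A B C = (1 - κ) * ((A + B + C) / 3) + κ * O :=
  main_of_core coreStmt f hf han hloc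

end Pool.Agent.Results.MP_02df19_gt.AnalyticCenters
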