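import Pool.Agent.Pon30.MainS30

/-!
# Triangle centres whose loci over all non-aligned concentric Poncelet pairs are ellipses, perhaps degenerate

Points of the plane are complex numbers. The curve `qf α β (z - o) = 1`, where `qf α β v = α ‖v‖² + Re (β v²)` and
`‖β‖ < α`, is an ellipse with centre `o`, and every ellipse with centre `o` is of this form.
-/

namespace Pool.Agent.Results.MP_02df19_gt.ContinuousCenters

open Pool.Agent.Pon30 Filter Topology

/-- **Fixed combinations of centroid and circumcentre.** Let `f` be a centre function that is continuous at all points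
near the one point `(1, 1, 1)`; nothing is assumed elsewhere. For every pair of concentric ellipses with non-parallel
axes that has 3-periodics the centres of all 3-periodics are points of the plane that lie on one ellipse, on one segment
or are one point, if and only if there is a real `κ` such that for every nondegenerate triangle `A B C` with
circumcentre `O` the centre is `(1 - κ) (A + B + C) / 3 + κ O`. -/
theorem result (f : ℝ → ℝ → ℝ → ℝ) (hf : IsCenterFunction f)
    (hc : ∀ᶠ x in 𝓝 ((1, 1, 1) : ℝ × ℝ × ℝ), ContinuousAt (fun p : ℝ × ℝ × ℝ => f p.1 p.2.1 p.2.2) x) :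
    (∀ (o : ℂ) (α : ℝ) (β : ℂ) (α' : ℝ) (β' : ℂ), PonceletPair o α β α' β' → NonAligned β β' →
      OnEllipse f o α β α' β') ↔
    ∃ κ : ℝ, ∀ A B C : ℂ, IsTriangle A B C → wsum f A B C ≠ 0 ∧
      ∀ O : ℂ, ‖O - A‖ = ‖O - B‖ → ‖O - B‖ = ‖O - C‖ →
        center f A B C = (1 - κ) * ((A + B + C) / 3) + κ * O :=
  mainL30 f hf hc

end Pool.Agent.Results.MP_02df19_gt.ContinuousCenters
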