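import Pool.Agent.Pon30.AllW30

/-!
# Analytic triangle centres whose loci over all non-aligned concentric Poncelet pairs are elliptic, perhaps degenerate

Points of the plane are complex numbers. The curve `qf α β (z - o) = 1`, where `qf α β v = α ‖v‖² + Re (β v²)` and
`‖β‖ < α`, is an ellipse with centre `o`, and every ellipse with centre `o` is of this form.
-/

namespace Pool.Agent.Results.MP_02df19_gt.FixedCombination

open Pool.Agent.Pon30

/-- **Fixed combinations of centroid and circumcentre.** Let `f` be a centre function, real-analytic on the set of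
side lengths of nondegenerate triangles, such that for every pair of concentric ellipses with non-parallel axes that
has 3-periodics the centres of all 3-periodics are points of the plane that lie on one ellipse, on one segment or are
one point. Then there is a real `κ` such that for every nondegenerate triangle `A B C` with circumcentre `O` the
centre is `(1 - κ) (A + B + C) / 3 + κ O`. If moreover each of these loci is the whole of a nondegenerate ellipse
then `κ` is `0`, `1` or `-2`: the centre is the centroid, the circumcentre or the orthocentre. -/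
theorem result (f : ℝ → ℝ → ℝ → ℝ) (hf : IsCenterFunction f)
    (han : AnalyticOnNhd ℝ (fun p : ℝ × ℝ × ℝ => f p.1 p.2.1 p.2.2) {p | Tri p.1 p.2.1 p.2.2})
    (hloc : ∀ (o : ℂ) (α : ℝ) (β : ℂ) (α' : ℝ) (β' : ℂ), PonceletPair o α β α' β' → NonAligned β β' →
      OnEllipse f o α β α' β') :
    ∃ κ : ℝ, (∀ A B C : ℂ, IsTriangle A B C → wsum f A B C ≠ 0 ∧
      ∀ O : ℂ, ‖O - A‖ = ‖O - B‖ → ‖O - B‖ = ‖O - C‖ →
        center f A B C = (1 - κ) * ((A + B + C) / 3) + κ * O) ∧
      ((∀ (o : ℂ) (α : ℝ) (β : ℂ) (α' : ℝ) (β' : ℂ), PonceletPair o α β α' β' → NonAligned β β' →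
        EllipticLocus f o α β α' β') → κ = 0 ∨ κ = 1 ∨ κ = -2) := by
  obtain ⟨κ, h⟩ := main_of_coreW coreStmtW pairW82 f hf han hloc
  refine ⟨κ, h, fun hstrict => ?_⟩
  obtain ⟨κ', hκ', h'⟩ := main_of_core coreStmt f hf han hstrict
  rwa [kappa_unique h h']

end Pool.Agent.Results.MP_02df19_gt.FixedCombination
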