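import Pool.Agent.Pon30.AllUU46

/-!
# Triangle centres whose loci over all non-aligned concentric Poncelet pairs are ellipses, perhaps degenerate

Points of the plane are complex numbers. The curve `qf α β (z - o) = 1`, where `qf α β v = α ‖v‖² + Re (β v²)` and
`‖β‖ < α`, is an ellipse with centre `o`, and every ellipse with centre `o` is of this form.
-/

namespace Pool.Agent.Results.MP_02df19_gt.LocalRegularity

open Pool.Agent.Pon30

/-- **Fixed combinations of centroid and circumcentre.** Let `f` be a centre function that is twice continuously
differentiable near the one point `(1, 1, 1)`; nothing else is assumed on the regularity of `f`, not even continuity.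
Suppose that for every pair of concentric ellipses with non-parallel axes that has 3-periodics the centres of all
3-periodics are points of the plane that lie on one ellipse, on one segment or are one point. Then there is a real `κ`
such that for every nondegenerate triangle `A B C` with circumcentre `O` the centre is
`(1 - κ) (A + B + C) / 3 + κ O`. If moreover each of these loci is the whole of a nondegenerate ellipse then `κ` is
`0`, `1` or `-2`: the centre is the centroid, the circumcentre or the orthocentre. -/
theorem result (f : ℝ → ℝ → ℝ → ℝ) (hf : IsCenterFunction f)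
    (hC2 : ContDiffAt ℝ 2 (fun p : ℝ × ℝ × ℝ => f p.1 p.2.1 p.2.2) (1, 1, 1))
    (hloc : ∀ (o : ℂ) (α : ℝ) (β : ℂ) (α' : ℝ) (β' : ℂ), PonceletPair o α β α' β' → NonAligned β β' →
      OnEllipse f o α β α' β') :
    ∃ κ : ℝ, (∀ A B C : ℂ, IsTriangle A B C → wsum f A B C ≠ 0 ∧
      ∀ O : ℂ, ‖O - A‖ = ‖O - B‖ → ‖O - B‖ = ‖O - C‖ →
        center f A B C = (1 - κ) * ((A + B + C) / 3) + κ * O) ∧
      ((∀ (o : ℂ) (α : ℝ) (β : ℂ) (α' : ℝ) (β' : ℂ), PonceletPair o α β α' β' → NonAligned β β' →
        EllipticLocus f o α β α' β') → κ = 0 ∨ κ = 1 ∨ κ = -2) :=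
  mainU f hf hC2 hloc

end Pool.Agent.Results.MP_02df19_gt.LocalRegularity
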